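import Pool.Agent.Lead.Psi2

set_option autoImplicit false
open Cardinal Pool.Agent.Lead.PsiC

namespace Pool.Agent.Results.MP_5155e4_gt.Q1

theorem result : ¬ ∀ (X : Type) [TopologicalSpace X] [T35Space X], LindelofSigma (Cp X) →
    (∀ x : X, IsGδ ({x} : Set X)) → #X ≤ 𝔠 :=
  Pool.Agent.Lead.PsiC.main

end Pool.Agent.Results.MP_5155e4_gt.Q1
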